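import Pool.Agent.Y719.TN.NF

/-!
# Whether `ρ_{f,p}` arises from étale cohomology does not depend on `p`

Let `K` be a number field, for example imaginary quadratic, and let `ρ_p`, for all prime numbers `p`,
be a compatible system of irreducible `n`-dimensional `p`-adic representations of `G_K`, for example
the representations `ρ_{f,p}` of a Bianchi newform `f`.  Let `W_p` be a compatible system of
`N`-dimensional representations, for example `W_p = H^i(X, ℚ_p-bar)(j)` for a smooth projective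
variety `X` over `K`.  Say that `ρ_p` is tensorial over `W_p` if it is a subquotient of
`W_p^{⊗a} ⊗ (W_p^∨)^{⊗b} ⊗ ℚ_p-bar[Gal(L/K)]` for some `a`, `b` and some finite Galois extension `L`
of `K`; for example, subquotients of `W_p` are tensorial over `W_p` (`a = 1`, `b = 0`, `L = K`).  For
`W_p = H^i(X, ℚ_p-bar)(j)` these spaces are subquotients of Tate twists of the étale cohomology of
`X^m × Spec L`.

We prove: if `ρ_p` is tensorial over `W_p` for one prime number `p`, then for every prime number `p`.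
-/

set_option autoImplicit false

namespace Pool.Agent.Results.MP_2e0e07_nt.IndependenceOfPrime

open NumberField IsDedekindDomain Filter Topology Polynomial

/-- The absolute Galois group of `K`. -/
abbrev G (K : Type) [Field K] : Type := Gal(AlgebraicClosure K/K)

/-- `n`-dimensional representations of `G_K` over the algebraic closure of `ℚ_p`. -/
abbrev Rep (K : Type) [Field K] (p : ℕ) [Fact p.Prime] (n : ℕ) : Type :=
  G K →* GL (Fin n) (PadicAlgCl p)

section
variable {K : Type} [Field K] {p : ℕ} [Fact p.Prime] {n N : ℕ}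

/-- `g` is a Frobenius element at `v`: for some maximal ideal `Q` above `v` of the ring of all
algebraic integers, `g x ≡ x ^ N(v)` modulo `Q` for all `x`. -/
def Frobenius [NumberField K] (v : HeightOneSpectrum (𝓞 K)) (g : G K) : Prop :=
  ∃ Q : Ideal (𝓞 (AlgebraicClosure K)), Q.IsMaximal ∧
    Q.comap (algebraMap (𝓞 K) (𝓞 (AlgebraicClosure K))) = v.asIdeal ∧
    ∀ x : 𝓞 (AlgebraicClosure K), g • x - x ^ Ideal.absNorm v.asIdeal ∈ Q

/-- The matrix of `g`. -/
noncomputable def matrix (ρ : Rep K p n) (g : G K) : Matrix (Fin n) (Fin n) (PadicAlgCl p) :=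
  (ρ g : GL (Fin n) (PadicAlgCl p))

/-- `V` is a stable subspace. -/
def Stable (ρ : Rep K p n) (V : Submodule (PadicAlgCl p) (Fin n → PadicAlgCl p)) : Prop :=
  ∀ g, ∀ x ∈ V, (matrix ρ g).mulVec x ∈ V

/-- `ρ` is irreducible. -/
def Irreducible (ρ : Rep K p n) : Prop :=
  0 < n ∧ ∀ V, Stable ρ V → V = ⊥ ∨ V = ⊤

/-- `ρ` is (isomorphic to) a subquotient of the space `X` on which `g ∈ G_K` acts as `act g`: there are
a stable subspace `V` of `X` and a linear map which maps `V` onto `ρ` and is equivariant on `V`. -/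
def SubquotientOf {X : Type} [AddCommGroup X] [Module (PadicAlgCl p) X] (act : G K → X → X)
    (ρ : Rep K p n) : Prop :=
  ∃ V : Submodule (PadicAlgCl p) X, (∀ g, ∀ x ∈ V, act g x ∈ V) ∧
    ∃ f : X → Fin n → PadicAlgCl p, IsLinearMap (PadicAlgCl p) f ∧ (∀ y, ∃ x ∈ V, f x = y) ∧
      ∀ g, ∀ x ∈ V, f (act g x) = (matrix ρ g).mulVec (f x)

/-- The space of `W^{⊗a} ⊗ (W^∨)^{⊗b} ⊗ ℚ_p-bar[G_K/U]`, where `W` has the dimension `N`: functions on
the standard basis. -/
def TensorSpace (K : Type) [Field K] (p : ℕ) [Fact p.Prime] (N a b : ℕ)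
    (U : Subgroup (G K)) : Type :=
  (Fin a → Fin N) → (Fin b → Fin N) → G K ⧸ U → PadicAlgCl p

noncomputable instance (N a b : ℕ) (U : Subgroup (G K)) : AddCommGroup (TensorSpace K p N a b U) :=
  Pi.addCommGroup

noncomputable instance (N a b : ℕ) (U : Subgroup (G K)) :
    Module (PadicAlgCl p) (TensorSpace K p N a b U) :=
  Pi.module _ _ _

/-- The matrix coefficient `∏_s W(g)_{i_s, i'_s} · ∏_t W(g⁻¹)_{j'_t, j_t}` of
`W^{⊗a} ⊗ (W^∨)^{⊗b}`. -/
noncomputable def coefficient {a b : ℕ} (W : Rep K p N) (g : G K) (i i' : Fin a → Fin N)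
    (j j' : Fin b → Fin N) : PadicAlgCl p :=
  (∏ s, matrix W g (i s) (i' s)) * ∏ t, matrix W g⁻¹ (j' t) (j t)

/-- The action of `g` on `W^{⊗a} ⊗ (W^∨)^{⊗b} ⊗ ℚ_p-bar[G_K/U]`: the value of `g F` at `(i, j, c)` is the
sum over `(i', j')` of `∏_s W(g)_{i_s, i'_s} · ∏_t W(g⁻¹)_{j'_t, j_t} · F(i', j', g⁻¹ c)`. -/
noncomputable def tensorAction (a b : ℕ) (U : Subgroup (G K)) (W : Rep K p N) (g : G K)
    (F : TensorSpace K p N a b U) : TensorSpace K p N a b U := fun i j c =>
  ∑ i', ∑ j', coefficient W g i i' j j' * F i' j' (g⁻¹ • c)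

/-- `ρ` is a subquotient of `W^{⊗a} ⊗ (W^∨)^{⊗b} ⊗ ℚ_p-bar[G_K/U]` for some `a`, `b` and some open
normal subgroup `U`. -/
def Tensorial (W : Rep K p N) (ρ : Rep K p n) : Prop :=
  ∃ U : Subgroup (G K), U.Normal ∧ IsOpen (U : Set (G K)) ∧
    ∃ a b : ℕ, SubquotientOf (tensorAction a b U W) ρ

/-- For all but finitely many `v` the characteristic polynomial of `ρ(g)`, for every Frobenius element
`g` at `v`, is the image of `P_v` under `ι`. -/
def HasCharpoly [NumberField K] {E : Type} [Field E] (ι : E →+* PadicAlgCl p) (ρ : Rep K p n)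
    (P : HeightOneSpectrum (𝓞 K) → E[X]) : Prop :=
  ∀ᶠ v in cofinite, ∀ g, Frobenius v g → (matrix ρ g).charpoly = (P v).map ι

end

/-- **Independence of `p`.**  Let `K` be a number field, `p` and `q` prime numbers (which may be
equal), `ρ` and `ρ₀` representations of `G_K` of dimension `n` over `ℚ_p-bar` and `ℚ_q-bar`, and `W`
and `W₀` representations of dimension `N` over `ℚ_p-bar` and `ℚ_q-bar`.  Suppose that `ρ` and `ρ₀` have
the same characteristic polynomials `P_v` of Frobenius elements, with coefficients in a field `E` with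
embeddings `ι` and `ι₀` into `ℚ_p-bar` and `ℚ_q-bar`, and that `W` and `W₀` have the same characteristic
polynomials `Q_v`.  Let `ρ` be irreducible and `ρ` and `W` continuous.

If `ρ₀` is a subquotient of `W₀^{⊗a} ⊗ (W₀^∨)^{⊗b} ⊗ ℚ_q-bar[G_K/U]` for some `a`, `b` and some open
normal subgroup `U`, then `ρ` is a subquotient of `W^{⊗a'} ⊗ (W^∨)^{⊗b'} ⊗ ℚ_p-bar[G_K/U']` for some
`a'`, `b'` and some open normal subgroup `U'`. -/
theorem result (K : Type) [Field K] [NumberField K] (n N p q : ℕ) [Fact p.Prime] [Fact q.Prime]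
    (E : Type) [Field E] (ι : E →+* PadicAlgCl p) (ι₀ : E →+* PadicAlgCl q)
    (P Q : HeightOneSpectrum (𝓞 K) → E[X]) (ρ : Rep K p n) (W : Rep K p N) (ρ₀ : Rep K q n)
    (W₀ : Rep K q N) (hρ : Continuous ρ) (hW : Continuous W) (hirr : Irreducible ρ)
    (h₁ : HasCharpoly ι ρ P) (h₂ : HasCharpoly ι W Q) (h₃ : HasCharpoly ι₀ ρ₀ P)
    (h₄ : HasCharpoly ι₀ W₀ Q) (h : Tensorial W₀ ρ₀) : Tensorial W ρ := by
  obtain ⟨U, hn, ho, a, b, V, hV, f, hl, hf, hfe⟩ := h
  have h5 : Pool.Agent.Y719.TN.Tnl W₀ ρ₀ := by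
    refine ⟨U, hn, ho, Pool.Agent.Y719.TN.fi_of_open U ho, a, b, ?_⟩
    exact Pool.Agent.Y719.TN.SubQ.sqF
      (Pool.Agent.Y719.TN.SubQ.actF ⟨V, hV, hl.mk' f, hf, hfe⟩)
  obtain ⟨U', hn', ho', -, a', b', h6⟩ := Pool.Agent.Y719.TN.transferK hρ hW hirr
    (({v | ¬ ∀ g, Frobenius v g → (matrix ρ₀ g).charpoly = (P v).map ι₀} ∪
      {v | ¬ ∀ g, Frobenius v g → (matrix W₀ g).charpoly = (Q v).map ι₀}) ∪
      ({v | ¬ ∀ g, Frobenius v g → (matrix ρ g).charpoly = (P v).map ι} ∪
      {v | ¬ ∀ g, Frobenius v g → (matrix W g).charpoly = (Q v).map ι}))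
    (Set.Finite.union (Set.Finite.union h₃ h₄) (Set.Finite.union h₁ h₂)) ι₀ ι P Q
    (fun v hv g hg => by
      simp only [Set.mem_union, not_or] at hv
      exact (not_not.1 hv.1.1) g hg)
    (fun v hv g hg => by
      simp only [Set.mem_union, not_or] at hv
      exact (not_not.1 hv.1.2) g hg)
    (fun v hv g hg => by
      simp only [Set.mem_union, not_or] at hv
      exact (not_not.1 hv.2.1) g hg)
    (fun v hv g hg => by
      simp only [Set.mem_union, not_or] at hv
      exact (not_not.1 hv.2.2) g hg) h5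
  obtain ⟨V', hV', f', hf', hfe'⟩ := h6.subC
  exact ⟨U', hn', ho', a', b', V', hV', f', f'.isLinear, hf', hfe'⟩

end Pool.Agent.Results.MP_2e0e07_nt.IndependenceOfPrime
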