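import Pool.Agent.Y719.NG.Iff

/-!
# The modulus of `L(f, s)` on the edge decides whether `ρ_{f,p}` arises from étale cohomology

Let `K` be an imaginary quadratic field, or any number field which is Galois over `ℚ`, and `ρ` an
irreducible `p`-adic representation of `G_K`, for example the representation `ρ_{f,p}` of a Bianchi
newform `f`.  Let `W_j` be finitely many semisimple `p`-adic representations of `G_K` of the same
weight, for example the semisimplifications of `H^i(X, ℚ_p-bar)(r)` for smooth projective varieties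
`X` over `K`.  If the absolute value of the boundary values of `L(ρ, s)` on the edge of absolute
convergence agrees, up to a constant and on a set of positive upper density, with a product of
integral powers of the absolute values of the boundary values of the `L(W_j, s)`, then `ρ` is a
subrepresentation of some `W_j ∘ (conjugation by σ)`, where `σ` is an automorphism of the algebraic
closure of `K`.  Since the class of the representations which arise from étale cohomology is stable
under these conjugations, `ρ` arises from étale cohomology if the `W_j` do.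
-/

set_option autoImplicit false

namespace Pool.Agent.Results.MP_2e0e07_nt.OneModulus

open NumberField IsDedekindDomain MeasureTheory Filter Topology Polynomial

section
variable {K : Type} [Field K] [NumberField K] {p : ℕ} [Fact p.Prime] {n : ℕ}

/-- `g` is a Frobenius element at `v`: for some maximal ideal `Q` above `v` of the ring of all
algebraic integers, `g x ≡ x ^ N(v)` modulo `Q` for all `x`. -/
def Frobenius (v : HeightOneSpectrum (𝓞 K)) (g : Gal(AlgebraicClosure K/K)) : Prop :=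
  ∃ Q : Ideal (𝓞 (AlgebraicClosure K)), Q.IsMaximal ∧
    Q.comap (algebraMap (𝓞 K) (𝓞 (AlgebraicClosure K))) = v.asIdeal ∧
    ∀ x : 𝓞 (AlgebraicClosure K), g • x - x ^ Ideal.absNorm v.asIdeal ∈ Q

/-- `g` lies in an inertia group at `v`: for some maximal ideal `Q` above `v` of the ring of all
algebraic integers, `g x ≡ x` modulo `Q` for all `x`. -/
def Inertia (v : HeightOneSpectrum (𝓞 K)) (g : Gal(AlgebraicClosure K/K)) : Prop :=
  ∃ Q : Ideal (𝓞 (AlgebraicClosure K)), Q.IsMaximal ∧
    Q.comap (algebraMap (𝓞 K) (𝓞 (AlgebraicClosure K))) = v.asIdeal ∧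
    ∀ x : 𝓞 (AlgebraicClosure K), g • x - x ∈ Q

/-- The matrix of `g`. -/
noncomputable def matrix (ρ : Gal(AlgebraicClosure K/K) →* GL (Fin n) (PadicAlgCl p))
    (g : Gal(AlgebraicClosure K/K)) : Matrix (Fin n) (Fin n) (PadicAlgCl p) :=
  (ρ g : GL (Fin n) (PadicAlgCl p))

/-- `W` is a stable subspace. -/
def Stable (ρ : Gal(AlgebraicClosure K/K) →* GL (Fin n) (PadicAlgCl p))
    (W : Submodule (PadicAlgCl p) (Fin n → PadicAlgCl p)) : Prop :=
  ∀ g, ∀ x ∈ W, (matrix ρ g).mulVec x ∈ W

/-- `ρ` is irreducible. -/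
def Irreducible (ρ : Gal(AlgebraicClosure K/K) →* GL (Fin n) (PadicAlgCl p)) : Prop :=
  0 < n ∧ ∀ W, Stable ρ W → W = ⊥ ∨ W = ⊤

/-- `ρ` is semisimple: every stable subspace has a stable complement. -/
def Semisimple (ρ : Gal(AlgebraicClosure K/K) →* GL (Fin n) (PadicAlgCl p)) : Prop :=
  ∀ W, Stable ρ W → ∃ W', Stable ρ W' ∧ IsCompl W W'

/-- `v` lies above a prime number in `S`. -/
def Bad (S : Finset ℕ) (v : HeightOneSpectrum (𝓞 K)) : Prop :=
  ∃ q ∈ S, (q : 𝓞 K) ∈ v.asIdeal

/-- `P` is the family of Euler factors of `ρ` away from `S`, and `ρ` has weights at most `w`: `P_v` is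
`1` for `v` above `S`; for all other `v` the representation is unramified and `P_v` is
`det(1 - X ρ(g⁻¹))` for the Frobenius elements `g` at `v`, with coefficients mapped to `ℂ` by `ι`;
the inverse roots of `P_v` are at most `Nv^{w/2}` in absolute value. -/
structure EulerFactors (S : Finset ℕ) (w : ℝ) (ι : PadicAlgCl p →+* ℂ)
    (ρ : Gal(AlgebraicClosure K/K) →* GL (Fin n) (PadicAlgCl p))
    (P : HeightOneSpectrum (𝓞 K) → ℂ[X]) : Prop where
  bad : ∀ v, Bad S v → P v = 1
  unramified : ∀ v, ¬ Bad S v → ∀ g, Inertia v g → ρ g = 1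
  frobenius : ∀ v, ¬ Bad S v → ∀ g, Frobenius v g → (matrix ρ g⁻¹).charpolyRev.map ι = P v
  weight : ∀ v, ∀ z : ℂ, (P v).eval z = 0 →
    (Ideal.absNorm v.asIdeal : ℝ) ^ (-(w / 2)) ≤ ‖z‖

/-- The Euler product `∏_v P_v(Nv^{-s})⁻¹`. -/
noncomputable def L (P : HeightOneSpectrum (𝓞 K) → ℂ[X]) (s : ℂ) : ℂ :=
  ∏' v : HeightOneSpectrum (𝓞 K), ((P v).eval ((Ideal.absNorm v.asIdeal : ℂ) ^ (-s)))⁻¹

/-- The limit of `|L(w/2 + 1 + σ + iτ)|` for `σ → 0`, `σ > 0`. -/
noncomputable def edgeAbs (w : ℝ) (P : HeightOneSpectrum (𝓞 K) → ℂ[X]) (τ : ℝ) : ℝ :=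
  limUnder (𝓝[>] (0 : ℝ)) fun σ : ℝ => ‖L P (((w / 2 + 1 : ℝ) : ℂ) + σ + τ * Complex.I)‖

/-- `g' = σ g σ⁻¹`. -/
def Conj (σ : AlgebraicClosure K ≃+* AlgebraicClosure K) (g g' : Gal(AlgebraicClosure K/K)) : Prop :=
  ∀ x, g' (σ x) = σ (g x)

end

/-- The values of `f` are concentrated: there is `δ > 0` such that for every `ε > 0` there are
arbitrarily large `T` and a real number `x` with `|f - x| < ε` on a subset of `(0, T]` of measure at
least `δ T`. -/
def Concentrated (f : ℝ → ℝ) : Prop :=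
  ∃ δ : ℝ, 0 < δ ∧ ∀ ε : ℝ, 0 < ε → ∃ᶠ T : ℝ in atTop, ∃ x : ℝ,
    ENNReal.ofReal (δ * T) ≤ volume {τ | τ ∈ Set.Ioc 0 T ∧ |f τ - x| < ε}

/-- **One modulus on the edge.**  Let `K` be a number field, Galois over `ℚ`, for example imaginary
quadratic, `ρ` an irreducible `p`-adic representation of `G_K` of dimension `n`, for example the
representation of a Bianchi newform, with the Euler factors `P`.

1. For all automorphisms `σ` of the algebraic closure of `K` and all `g ∈ G_K` there is exactly one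
  `g' = σ g σ⁻¹` in `G_K`.
2. Let `W_j` be finitely many semisimple `p`-adic representations of `G_K` with the Euler factors
  `R_j`, all of weight `w`, and `m_j` integers.  If the logarithm of
  `|L(ρ, s)| / ∏_j |L(W_j, s)|^{m_j}` on the line `Re s = w/2 + 1` is concentrated, for example
  constant on a set of positive upper density, then there are `j` with `m_j > 0` and `σ` such that
  `ρ` is a subrepresentation of `g ↦ W_j(σ g σ⁻¹)`: there is an injective matrix `H` with
  `W_j(σ g σ⁻¹) H = H ρ(g)` for all `g`.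
3. Let `W` be a semisimple `p`-adic representation of the same dimension, with the Euler factors `R`.
  The following are equivalent: `ρ` is isomorphic to `g ↦ W(σ g σ⁻¹)` for some `σ`; the Euler
  products are equal; the absolute values of their boundary values are equal almost everywhere; the
  logarithm of the quotient of the absolute values is concentrated. -/
theorem result (K : Type) [Field K] [NumberField K] [IsGalois ℚ K] (p : ℕ) [Fact p.Prime]
    (ι : PadicAlgCl p →+* ℂ) (S : Finset ℕ) (hS : ∀ q ∈ S, q.Prime) (w : ℝ) (n : ℕ)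
    (ρ : Gal(AlgebraicClosure K/K) →* GL (Fin n) (PadicAlgCl p)) (hρ : Continuous ρ)
    (hirr : Irreducible ρ) (P : HeightOneSpectrum (𝓞 K) → ℂ[X]) (hP : EulerFactors S w ι ρ P) :
    (∀ (σ : AlgebraicClosure K ≃+* AlgebraicClosure K) (g : Gal(AlgebraicClosure K/K)),
      ∃! g' : Gal(AlgebraicClosure K/K), Conj σ g g') ∧
    (∀ (κ : Type) [Fintype κ] (m : κ → ℤ) (N : κ → ℕ)
      (W : ∀ j, Gal(AlgebraicClosure K/K) →* GL (Fin (N j)) (PadicAlgCl p))
      (R : κ → HeightOneSpectrum (𝓞 K) → ℂ[X]), (∀ j, Continuous (W j)) →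
      (∀ j, Semisimple (W j)) → (∀ j, EulerFactors S w ι (W j) (R j)) →
      (Concentrated fun τ => Real.log (edgeAbs w P τ) - ∑ j, m j * Real.log (edgeAbs w (R j) τ)) →
      ∃ j, 0 < m j ∧ ∃ σ : AlgebraicClosure K ≃+* AlgebraicClosure K,
        ∃ H : Matrix (Fin (N j)) (Fin n) (PadicAlgCl p), (∀ x, H.mulVec x = 0 → x = 0) ∧
          ∀ g g', Conj σ g g' → matrix (W j) g' * H = H * matrix ρ g) ∧
    (∀ (W : Gal(AlgebraicClosure K/K) →* GL (Fin n) (PadicAlgCl p))
      (R : HeightOneSpectrum (𝓞 K) → ℂ[X]), Continuous W → Semisimple W →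
      EulerFactors S w ι W R → List.TFAE
        [∃ σ : AlgebraicClosure K ≃+* AlgebraicClosure K, ∃ Q : GL (Fin n) (PadicAlgCl p),
            ∀ g g', Conj σ g g' → W g' = Q * ρ g * Q⁻¹,
         ∀ s, L P s = L R s,
         ∀ᵐ τ : ℝ, edgeAbs w P τ = edgeAbs w R τ,
         Concentrated fun τ => Real.log (edgeAbs w P τ) - Real.log (edgeAbs w R τ)]) := by
  classical
  have hconj : ∀ (σ : AlgebraicClosure K ≃+* AlgebraicClosure K)
      (g g' : Gal(AlgebraicClosure K/K)), Conj σ g g' ↔ g' = Pool.Agent.Y719.NG.cj σ g := by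
    intro σ g g'
    constructor
    · intro h
      apply AlgEquiv.ext
      intro x
      have h1 := h (σ.symm x)
      rw [RingEquiv.apply_symm_apply] at h1
      exact h1
    · rintro rfl x
      rw [Pool.Agent.Y719.NG.cj_apply, RingEquiv.symm_apply_apply]
  have hL : ∀ (P : HeightOneSpectrum (𝓞 K) → ℂ[X]) (s : ℂ),
      Pool.Agent.Y719.EL.N.LS P (fun _ => 1) s = L P s := by
    intro P s
    unfold Pool.Agent.Y719.EL.N.LS L
    refine tprod_congr fun v => ?_
    rw [one_mul]
    rfl
  have he : ∀ (P : HeightOneSpectrum (𝓞 K) → ℂ[X]) (τ : ℝ),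
      Pool.Agent.Y719.EL.N.eA w P (fun _ => 1) τ = edgeAbs w P τ := by
    intro P τ
    unfold Pool.Agent.Y719.EL.N.eA edgeAbs
    simp_rw [hL]
  have hF : ∀ {N : ℕ} (W : Gal(AlgebraicClosure K/K) →* GL (Fin N) (PadicAlgCl p))
      (R : HeightOneSpectrum (𝓞 K) → ℂ[X]), EulerFactors S w ι W R →
      Pool.Agent.Y719.NG.Fac S w ι W R := fun W R h =>
    ⟨h.bad, fun v hv => ⟨h.unramified v hv, h.frobenius v hv⟩, h.weight⟩
  refine ⟨fun σ g => ⟨Pool.Agent.Y719.NG.cj σ g, (hconj σ g _).2 rfl,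
    fun g' h => (hconj σ g g').1 h⟩, ?_, ?_⟩
  · intro κ _ m N W R hW hs hR hc
    have hc' : Pool.Agent.Y774.MD.Concentrated fun τ =>
        Real.log (Pool.Agent.Y719.EL.N.eA w P (fun _ => 1) τ) -
        ∑ j, m j * Real.log (Pool.Agent.Y719.EL.N.eA w (R j) (fun _ => 1) τ) := by
      simp_rw [he]
      exact hc
    obtain ⟨j, hj, σ, H, hH0, hH⟩ := Pool.Agent.Y719.NG.one_modulus (w := w) (m := m)
      (hF ρ P hP).typ (fun j => (hF (W j) (R j) (hR j)).typ) hc' ι hρ hirr hW hs
      (Pool.Agent.Y719.NG.bad K S) (Pool.Agent.Y719.NG.bad_finite hS)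
      (fun τ v hv => (Pool.Agent.Y719.NG.bad_pl τ v).1 hv) (hF ρ P hP).att
      (fun j => (hF (W j) (R j) (hR j)).att)
    refine ⟨j, hj, σ, H, hH0, fun g g' hg => ?_⟩
    rw [(hconj σ g g').1 hg]
    exact hH g
  · intro W R hW hs hR
    have h1 := Pool.Agent.Y719.NG.two hS (hF ρ P hP) (hF W R hR) hρ hW hirr hs
    have e1 : (∃ σ : AlgebraicClosure K ≃+* AlgebraicClosure K, ∃ Q : GL (Fin n) (PadicAlgCl p),
          ∀ g, W (Pool.Agent.Y719.NG.cj σ g) = Q * ρ g * Q⁻¹) ↔
        ∃ σ : AlgebraicClosure K ≃+* AlgebraicClosure K, ∃ Q : GL (Fin n) (PadicAlgCl p),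
            ∀ g g', Conj σ g g' → W g' = Q * ρ g * Q⁻¹ := by
      constructor
      · rintro ⟨σ, Q, h⟩
        refine ⟨σ, Q, fun g g' hg => ?_⟩
        rw [(hconj σ g g').1 hg]
        exact h g
      · rintro ⟨σ, Q, h⟩
        exact ⟨σ, Q, fun g => h g _ ((hconj σ g _).2 rfl)⟩
    rw [e1] at h1
    simp_rw [he, hL] at h1
    exact h1

end Pool.Agent.Results.MP_2e0e07_nt.OneModulus
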