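import Pool.Agent.Y456.LG.ResFin

/-!
# Galois representations from geometry and sparse linear sections of `GL_m`

Let `K` be a number field (for instance an imaginary quadratic field) and `p` a prime. A sparse pattern is
a square matrix `M` each of whose entries is `0`, `1` or one of the variables `x_1, …, x_d`, in which each
variable occurs, with at most three nonzero entries in every row and in every column (`IsPattern M`,
`Thin M`). The points `x` of the affine space over `ℚ` such that the matrix `M(x)` is invertible form the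
scheme `U_M` (`secGL M`), a linear section of `GL_m` over `ℚ`.

The cohomology groups `H X n = H^n_c(X ⊗ ℚ̄, ℚ̄_p)` of the schemes over `ℚ` and `H' X n = H^n_c(X ⊗ K̄, ℚ̄_p)`
of the schemes over `K`, as representations of the Galois group of `K`, are given by their known properties
(`IsRes`).

1. An irreducible representation of the Galois group of `K` is a subquotient of the cohomology of a smooth
   projective scheme over `K` if and only if it is a subquotient of the (restriction to the Galois group of
   `K` of the) cohomology with compact supports of `U_M` for one sparse pattern `M` of zeros, ones and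
   variables.
2. So it arises from étale cohomology (is a subquotient of some `H^i(X ⊗ K̄, ℚ̄_p)(j)`, with `X` smooth and
   projective over `K`) if and only if it is a subquotient of some `H^i_c(U_M ⊗ ℚ̄, ℚ̄_p)(j)`.
3. For every smooth projective scheme `X` over `K` there is a finite list of sparse patterns such that, for
   all primes `p` (for all cohomology theories), all irreducible subquotients of the cohomology of `X` are
   subquotients of the cohomology of the `U_M`, `M` in the list.
-/

set_option autoImplicit false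

open CategoryTheory AlgebraicGeometry MvPolynomial Pool.Agent.Y116.UV Pool.Agent.Z125.UN
  Pool.Agent.Y101.Th Pool.Agent.Y456.LG

namespace Pool.Agent.Results.MP_2e0e07_nt.SparseLinearSections

universe v u

/-- An irreducible Galois representation arises from étale cohomology if and only if it occurs, up to a
Tate twist, in the cohomology with compact supports of one sparse linear section of `GL_m` given by a
pattern of zeros, ones and variables. -/
theorem result {K : Type} [Field K] [NumberField K] :
    (∀ {A : Type u} [Category.{v} A] [Abelian A] {H : Sch ℚ → ℤ → A} {H' : Sch K → ℤ → A},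
      IsRes H H' → ∀ (R : A), Simple R →
      ((∃ (X : Sch K) (i : ℤ), SmProj X ∧ Subq R (H' X i)) ↔
        ∃ (d m : ℕ) (M : Matrix (Fin m) (Fin m) (MvPolynomial (Fin d) ℚ)) (i : ℤ),
          IsPattern M ∧ Thin M ∧ Subq R (H (secGL M) i)) ∧
      ∀ tw : ℤ → A → A, (∀ j, Simple (tw j R)) → (∀ j B, Subq R (tw j B) ↔ Subq (tw (-j) R) B) →
        ((∃ (X : Sch K) (i j : ℤ), SmProj X ∧ Subq R (tw j (H' X i))) ↔
          ∃ (d m : ℕ) (M : Matrix (Fin m) (Fin m) (MvPolynomial (Fin d) ℚ)) (i j : ℤ),
            IsPattern M ∧ Thin M ∧ Subq R (tw j (H (secGL M) i)))) ∧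
    ∀ X : Sch K, SmProj X → ∃ L : Mats ℚ, (∀ x ∈ L, IsPattern x.2.2 ∧ Thin x.2.2) ∧
      ∀ {A : Type u} [Category.{v} A] [Abelian A] {H : Sch ℚ → ℤ → A} {H' : Sch K → ℤ → A},
        IsRes H H' → ∀ (R : A), Simple R → ∀ i, Subq R (H' X i) →
          ∃ x ∈ L, ∃ j, Subq R (H (secGL x.2.2) j) := by
  have hS : Alphabet ({0, 1} : Set ℚ) := alphabet_frac isFrac_rat
  have key : ∀ {A : Type u} [Category.{v} A] [Abelian A] {H : Sch ℚ → ℤ → A}
      {H' : Sch K → ℤ → A}, IsRes H H' → ∀ (R : A), Simple R →
      ((∃ (X : Sch K) (i : ℤ), SmProj X ∧ Subq R (H' X i)) ↔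
        ∃ (d m : ℕ) (M : Matrix (Fin m) (Fin m) (MvPolynomial (Fin d) ℚ)) (i : ℤ),
          IsPattern M ∧ Thin M ∧ Subq R (H (secGL M) i)) := by
    intro A _ _ H H' hH R hR
    rw [occ_res hS hH R]
    constructor
    · rintro ⟨d, m, M, i, h1, h2, h3⟩
      exact ⟨d, m, M, i, isPattern_of h1, h2, h3⟩
    · rintro ⟨d, m, M, i, h1, h2, h3⟩
      refine ⟨d, m, M, i, ⟨fun a b => ?_, h1.occurs⟩, h2, h3⟩
      rcases h1.entry a b with h | h | h
      · exact Or.inl ⟨0, Or.inl rfl, by rw [h, map_zero]⟩
      · exact Or.inl ⟨1, Or.inr rfl, by rw [h, map_one]⟩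
      · exact Or.inr h
  refine ⟨fun {A} _ _ H H' hH R hR => ⟨key hH R hR, fun tw h1 h2 => ?_⟩, fun X hX => ?_⟩
  · constructor
    · rintro ⟨X, i, j, hX, h⟩
      obtain ⟨d, m, M, i', h3, h4, h5⟩ := (key hH _ (h1 (-j))).mp ⟨X, i, hX, (h2 j _).mp h⟩
      exact ⟨d, m, M, i', j, h3, h4, (h2 j _).mpr h5⟩
    · rintro ⟨d, m, M, i, j, h3, h4, h5⟩
      obtain ⟨X, i', hX, h6⟩ := (key hH _ (h1 (-j))).mpr ⟨d, m, M, i, h3, h4, (h2 j _).mp h5⟩
      exact ⟨X, i', j, hX, (h2 j _).mpr h6⟩
  · obtain ⟨L, h1, h2⟩ := occ_fin.{v, u} hS (toBase ℚ K X) (ft_toBase hX.ft)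
    refine ⟨L, fun x hx => ⟨isPattern_of (h1 x hx).1, (h1 x hx).2⟩, ?_⟩
    intro A _ _ H H' hH R hR i hi
    exact h2 hH.coh R hR ⟨i, hi.trans (hH.induced X hX i)⟩

end Pool.Agent.Results.MP_2e0e07_nt.SparseLinearSections
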